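import Pool.Agent.Run7.h9.JF.Lo3
import Pool.Agent.Run7.h9.JF.Lo4

/-!
# Lower bounds for the joint fourth moment `∫ ψ f² g² dμ` (MP_a28cf0_nt)

The plane is `ℂ`, with the upper half plane `HH` and `dμ = dx dy / y²`. `dx f z`, `dy f z` are the
partial derivatives `fderiv ℝ f z 1`, `fderiv ℝ f z I`; `TF U φ` says that `φ : ℂ → ℝ` is smooth
with compact support contained in `U`.

For Hecke-Maass cusp forms the hypothesis `QUE` is a theorem (Lindenstrauss, Soundararajan), so that
the result is an unconditional lower bound of the conjectured order for the case `I = 2`,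
`a = (2, 2)` of the conjecture, in which the limit should be `∫ ψ dμ`. Nothing is assumed on the
fourth moments of `f` and `g`.

Proof. Let `σ < 1` be the ratio of the frequencies, `L` the Laplacian normalised by the frequency of
`f`. The translation relations and the null form of the two ladders show that the power spectrum of
`f g` is that of the Gaussian field plus one half of the image of the joint spectrum of `(f², g²)`
(minus its Gaussian value) under the two-valued map which sends `X` to the roots `z, z'` of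
`z + z' = 2 + 2 σ² - X`, `z z' = (1 - σ²)²`. For each `X` exactly one of the roots is below
`1 - σ²`. As the power spectrum of `f g` on `[0, 1 - σ²]` is nonnegative, `∫ ψ f² g² - ∫ ψ` is at
least `- 2 P`, with `P = arccos σ / π` the mass of `[0, 1 - σ²]` in the Gaussian spectrum. To make
this work without any bound of fourth moments, the indicator function is approximated by squares of
polynomials `F` with `F(z)² + F(z')² = 1 - X (4 - X) P₂(X)` such that `P₂` is small and vanishes at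
`0` and `4 σ²`, so that `X (4 - X)` and `P₂` vanish at the exceptional frequencies of `f²` and of
`g²`. This is the bound with `a = (2/π) arcsin σ`.

The second bound `1 - 2 √a` uses a polynomial `F` with `F² = 1` at the exceptional frequencies
`(1 - σ)²` and `1 - σ²` and small elsewhere, whose mass in the Gaussian spectrum is small. Then
`∫ ψ f² g² - ∫ ψ` is at least minus the correlation of the parts of `f²` and `g²` with frequencies
in `(0, 4 σ²)`, and by the Cauchy-Schwarz inequality it is bounded by the square root of the product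
of `(4/π) arcsin σ`, the mass of this interval for `f²`, and of `2`, the total mass for `g²`. As in
the first bound the constant term has to be removed by polynomials vanishing at the exceptional
frequencies: `1 - F(z)² - F(z')² = X (4 - X) (H(X) P(X) + P₃(X))` with `X (4 - X) H` an approximation
of the indicator function of `[0, 4 σ²]`, `P` of `1` on `(0, 4 σ²)`, and `P₃` small.

The two bounds are the ends `l = 1` and `l = 0` of a family `bb l σ`, `0 ≤ l ≤ 1`: `F²` is close to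
the indicator function of `[(1 - σ)², κ]` with `κ = (1 - σ)(1 - σ + 2 l σ)`, and the Cauchy-Schwarz
inequality is used for the frequencies `X` between `4 σ² w` (which belongs to `κ`) and `4 σ²`.
-/

set_option autoImplicit false
open MeasureTheory Filter Topology Complex
open scoped ContDiff

namespace Pool.Agent.Results.MP_a28cf0_nt.FourthMomentsFromBelow

open Pool.Agent.W745.RW (TF dx dy lap)

/-- the open upper half plane -/
def HH : Set ℂ := {z | 0 < z.im}

/-- the eigenvalue `1/4 + t²` -/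
noncomputable def ev (t : ℝ) : ℝ := 1 / 4 + t ^ 2

/-- `f` is a smooth real solution of `-y² (∂x² + ∂y²) f = (1/4 + t²) f` on the upper half plane -/
def Eig (t : ℝ) (f : ℂ → ℝ) : Prop :=
  ContDiffOn ℝ ∞ f HH ∧ ∀ z ∈ HH, -(z.im ^ 2 * (dx (dx f) z + dy (dy f) z)) = ev t * f z

/-- the operator `f ↦ lam^{-1/2} y (∂x f - i ∂y f)` -/
noncomputable def RO (lam : ℝ) (f : ℂ → ℂ) (z : ℂ) : ℂ :=
  ((z.im / √lam : ℝ) : ℂ) * (dx f z - I * dy f z)

/-- quantum unique ergodicity in microlocal form: `∫ φ f (RO^k f) dμ → ∫ φ dμ` for `k = 0`, and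
`→ 0` for `k ≥ 1` -/
def QUE (t : ℕ → ℝ) (f : ℕ → ℂ → ℝ) : Prop :=
  ∀ φ, TF HH φ → ∀ k : ℕ, Tendsto (fun n => ∫ z, ((φ z / z.im ^ 2 : ℝ) : ℂ) *
    ((f n z : ℂ) * (RO (ev (t n)))^[k] (fun w => (f n w : ℂ)) z)) atTop
    (𝓝 (if k = 0 then ((∫ z, φ z / z.im ^ 2 : ℝ) : ℂ) else 0))

/-- the sequence is bounded in `L²(K, dμ)` for every compact subset `K` of the upper half plane -/
def LocL2 (f : ℕ → ℂ → ℝ) : Prop := ∀ K : Set ℂ, IsCompact K → K ⊆ HH →
  ∃ C : ℝ, ∀ᶠ n in atTop, ∫ z in K, f n z ^ 2 / z.im ^ 2 ≤ C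

/-- the integral `∫ ψ F dμ` -/
noncomputable def II (ψ F : ℂ → ℝ) : ℝ := ∫ z, ψ z * F z / z.im ^ 2

/-- the ratio of the eigenvalues, the smaller one divided by the larger one -/
noncomputable def rat (t s : ℝ) : ℝ := min (ev s / ev t) (ev t / ev s)

lemma ev_pos (t : ℝ) : 0 < ev t := by unfold ev; positivity

lemma HHo : IsOpen HH := isOpen_lt continuous_const continuous_im

lemma ev_lim {t : ℕ → ℝ} (ht : Tendsto t atTop atTop) :
    Tendsto (fun n => ev (t n)) atTop atTop :=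
  tendsto_atTop_add_const_left _ _ ((tendsto_pow_atTop two_ne_zero).comp ht)

lemma cmp_bd {K : Set ℂ} (hK : IsCompact K) (hKH : K ⊆ HH) : ∃ C : ℝ, 0 < C ∧
    ∀ F : ℂ → ℝ, ContinuousOn F K → (∀ z, 0 ≤ F z) →
      ∫ z in K, F z ≤ C * ∫ z in K, F z / z.im ^ 2 := by
  have him : ContDiff ℝ ∞ (fun z : ℂ => z.im) := imCLM.contDiff
  obtain ⟨C, hC⟩ := hK.exists_bound_of_continuousOn
    ((him.continuous.pow 2).continuousOn (s := K))
  refine ⟨|C| + 1, by positivity, fun F hF hF0 => ?_⟩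
  have i1 : IntegrableOn F K := hF.integrableOn_compact hK
  have i2 : IntegrableOn (fun z => (|C| + 1) * (F z / z.im ^ 2)) K := by
    refine ContinuousOn.integrableOn_compact hK ?_
    refine continuousOn_const.mul (hF.div (him.continuous.pow 2).continuousOn fun z hz => ?_)
    have : 0 < z.im := hKH hz
    positivity
  rw [← integral_const_mul]
  refine setIntegral_mono_on i1 i2 hK.measurableSet fun z hz => ?_
  have h3 : 0 < z.im := hKH hz
  have h4 : z.im ^ 2 ≤ |C| + 1 := by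
    have h7 : ‖z.im ^ 2‖ ≤ C := hC z hz
    rw [Real.norm_eq_abs, abs_of_nonneg (pow_nonneg h3.le 2)] at h7
    linarith [le_abs_self C]
  rw [mul_div_assoc', le_div_iff₀ (pow_pos h3 2), mul_comm]
  exact mul_le_mul_of_nonneg_right h4 (hF0 z)

lemma data {t s : ℕ → ℝ} (ht : Tendsto t atTop atTop) (hs : Tendsto s atTop atTop)
    {f g : ℕ → ℂ → ℝ} (hf : ∀ n, Eig (t n) (f n)) (hg : ∀ n, Eig (s n) (g n))
    (hqe : QUE t f) (hgb : LocL2 g) :
    Pool.Agent.Y265.HY.JC.JD HH (fun n => ev (t n)) (fun n => ev (s n)) f g where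
  op := HHo
  hU := fun z hz => hz
  lp := fun n => ev_pos _
  ll := ev_lim ht
  mp := fun n => ev_pos _
  ml := ev_lim hs
  us := fun n => (hf n).1
  gs := fun n => (hg n).1
  ue := fun n z hz => by
    have h1 := (hf n).2 z hz
    have h2 : lap (f n) z = dx (dx (f n)) z + dy (dy (f n)) z := rfl
    rw [h2]; linarith
  ge := fun n z hz => by
    have h1 := (hg n).2 z hz
    have h2 : lap (g n) z = dx (dx (g n)) z + dy (dy (g n)) z := rfl
    rw [h2]; linarith
  gb := fun K hK hKH => by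
    obtain ⟨C, hC⟩ := hgb K hK hKH
    obtain ⟨C', hC'0, hC'⟩ := cmp_bd hK hKH
    refine ⟨C' * C, hC.mono fun n hn => ?_⟩
    exact (hC' (fun z => g n z ^ 2) (((hg n).1.continuousOn.mono hKH).pow 2)
      (fun z => by positivity)).trans (mul_le_mul_of_nonneg_left hn hC'0.le)
  qe := hqe

lemma tf {ψ : ℂ → ℝ} (hψ : TF HH ψ) : TF HH (fun z => ψ z / z.im ^ 2) := by
  have sy : ContDiffOn ℝ ∞ (fun z : ℂ => (z.im ^ 2)⁻¹) HH := by
    refine ContDiffOn.inv ((imCLM.contDiff.pow 2).contDiffOn) fun z hz => ?_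
    have : 0 < z.im := hz
    exact pow_ne_zero 2 this.ne'
  exact Pool.Agent.TH294.RS.TF.mulc HHo hψ sy

/-- quantum ergodic sequences are locally bounded in `L²` -/
lemma que_bd {t : ℕ → ℝ} {f : ℕ → ℂ → ℝ} (hf : ∀ n, Eig (t n) (f n)) (h : QUE t f) : LocL2 f := by
  intro K hK hKH
  obtain ⟨ζ, hζ, hζ0, -, hζ1⟩ := Pool.Agent.Y265.RW.cutoff HHo hK hKH
  have h1 := h ζ hζ 0
  rw [if_pos rfl] at h1
  have h2 : Tendsto (fun n => ∫ z, ζ z / z.im ^ 2 * f n z ^ 2) atTop
      (𝓝 (∫ z, ζ z / z.im ^ 2)) := by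
    refine Pool.Agent.Y265.HY.toR (h1.congr fun n => ?_)
    rw [← integral_complex_ofReal]
    congr 1; funext z
    simp only [Function.iterate_zero, id_eq]
    push_cast; ring
  refine ⟨(∫ z, ζ z / z.im ^ 2) + 1, ?_⟩
  filter_upwards [h2.eventually (gt_mem_nhds (lt_add_one _))] with n hn
  have i1 : Integrable (fun z => ζ z / z.im ^ 2 * f n z ^ 2) :=
    Pool.Agent.W311.RW.int_mul HHo (tf hζ) ((hf n).1.continuousOn.pow 2)
  calc ∫ z in K, f n z ^ 2 / z.im ^ 2 = ∫ z in K, ζ z / z.im ^ 2 * f n z ^ 2 := by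
        refine setIntegral_congr_fun hK.measurableSet fun z hz => ?_
        rw [hζ1 z hz]; ring
    _ ≤ ∫ z, ζ z / z.im ^ 2 * f n z ^ 2 := setIntegral_le_integral i1
        (Eventually.of_forall fun z => by
          have := hζ0 z
          simp only [Pi.zero_apply]; positivity)
    _ ≤ _ := hn.le

lemma II_eq (ψ F : ℂ → ℝ) : II ψ F = ∫ z, (fun z => ψ z / z.im ^ 2) z * F z := by
  unfold II
  congr 1; funext z; ring

lemma half {t s : ℕ → ℝ} (ht : Tendsto t atTop atTop) (hs : Tendsto s atTop atTop)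
    {f g : ℕ → ℂ → ℝ} (hf : ∀ n, Eig (t n) (f n)) (hg : ∀ n, Eig (s n) (g n)) (hqf : QUE t f)
    (hqg : QUE s g) {ψ : ℂ → ℝ} (hψ : TF HH ψ) (h0 : ∀ z, 0 ≤ ψ z) {δ ε : ℝ} (hδ : 0 < δ)
    (hε : 0 < ε) : ∀ᶠ n in atTop, δ ≤ ev (s n) / ev (t n) → ev (s n) / ev (t n) ≤ 1 - δ →
      2 / Real.pi * Real.arcsin (√(ev (s n) / ev (t n))) * II ψ (fun _ => 1) - ε ≤
        II ψ (fun z => f n z ^ 2 * g n z ^ 2) ∧
      (1 - 2 * √(2 / Real.pi * Real.arcsin (√(ev (s n) / ev (t n))))) * II ψ (fun _ => 1) - ε ≤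
        II ψ (fun z => f n z ^ 2 * g n z ^ 2) := by
  have bg := que_bd hg hqg
  have key := Pool.Agent.Run7.h9.JF.low_gen (data ht hs hf hg hqf bg) (data hs hs hg hg hqg bg)
    (tf hψ) (fun z => div_nonneg (h0 z) (sq_nonneg _)) hδ hε
  have key3 := Pool.Agent.Run7.h9.JF.low_gen3 (data ht hs hf hg hqf bg)
    (data hs hs hg hg hqg bg) (tf hψ) (fun z => div_nonneg (h0 z) (sq_nonneg _)) hδ hε
  have e : II ψ (fun _ => 1) = ∫ z, ψ z / z.im ^ 2 := by
    unfold II; simp only [mul_one]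
  filter_upwards [key, key3] with n hn hn3 h1 h2
  rw [e, II_eq]
  exact ⟨hn h1 h2, hn3 h1 h2⟩

/-- the constant `(2/π) arcsin (√q)` of the pair of spectral parameters -/
noncomputable def aa (t s : ℝ) : ℝ := 2 / Real.pi * Real.arcsin (√(rat t s))

/-- the relative position of the cutoff for the parameter `l` -/
noncomputable def ww (l σ : ℝ) : ℝ := l * (2 - l * (1 - σ)) / (1 - σ + 2 * l * σ)

/-- the constant of the lower bound with the parameter `l` for the ratio `σ` of the frequencies -/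
noncomputable def bb (l σ : ℝ) : ℝ := 1 - 2 / Real.pi * Real.arccos (1 - l * (1 - σ)) -
  4 / Real.pi * √((Real.arcsin σ - Real.arcsin (σ * √(ww l σ))) * Real.arccos (√(ww l σ)))

lemma bb_one {σ : ℝ} (h0 : 0 ≤ σ) : bb 1 σ = 2 / Real.pi * Real.arcsin σ := by
  have hpi := Real.pi_pos
  have h1 : ww 1 σ = 1 := by
    have : 1 + σ ≠ 0 := by positivity
    unfold ww
    rw [div_eq_one_iff_eq (by intro h; apply this; linarith)]; ring
  unfold bb
  rw [h1, Real.sqrt_one, mul_one, sub_self, zero_mul, Real.sqrt_zero, mul_zero, sub_zero]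
  unfold Real.arccos
  rw [show 1 - 1 * (1 - σ) = σ by ring]
  field_simp
  ring

lemma half4 {t s : ℕ → ℝ} (ht : Tendsto t atTop atTop) (hs : Tendsto s atTop atTop)
    {f g : ℕ → ℂ → ℝ} (hf : ∀ n, Eig (t n) (f n)) (hg : ∀ n, Eig (s n) (g n)) (hqf : QUE t f)
    (hqg : QUE s g) {ψ : ℂ → ℝ} (hψ : TF HH ψ) (h0 : ∀ z, 0 ≤ ψ z) {l : ℝ} (hl : 0 ≤ l)
    (hl1 : l < 1) {δ ε : ℝ} (hδ : 0 < δ)
    (hε : 0 < ε) : ∀ᶠ n in atTop, δ ≤ ev (s n) / ev (t n) → ev (s n) / ev (t n) ≤ 1 - δ →
      bb l (√(ev (s n) / ev (t n))) * II ψ (fun _ => 1) - ε ≤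
        II ψ (fun z => f n z ^ 2 * g n z ^ 2) := by
  have bg := que_bd hg hqg
  have key := Pool.Agent.Run7.h9.JF.low_gen4 (data ht hs hf hg hqf bg) (data hs hs hg hg hqg bg)
    (tf hψ) (fun z => div_nonneg (h0 z) (sq_nonneg _)) hl hl1 hδ hε
  have e : II ψ (fun _ => 1) = ∫ z, ψ z / z.im ^ 2 := by
    unfold II; simp only [mul_one]
  filter_upwards [key] with n hn h1 h2
  rw [e, II_eq]
  exact hn h1 h2

lemma max_bd {a : ℝ} (ha : 0 ≤ a) : 3 - 2 * √2 ≤ max a (1 - 2 * √a) := by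
  have h2 : √2 * √2 = 2 := Real.mul_self_sqrt (by norm_num)
  have h1 : 1 ≤ √2 := by
    rw [← Real.sqrt_one]; exact Real.sqrt_le_sqrt (by norm_num)
  have ha2 := Real.mul_self_sqrt ha
  have ha0 := Real.sqrt_nonneg a
  rcases le_total (√2 - 1) (√a) with h | h
  · refine le_trans ?_ (le_max_left _ _)
    nlinarith
  · refine le_trans ?_ (le_max_right _ _)
    linarith

/-- **Result.** Let `f n`, `g n` be real eigenfunctions of the hyperbolic Laplacian on the upper
half plane with spectral parameters `t n`, `s n → ∞`, both satisfying microlocal quantum unique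
ergodicity. Let `q n = rat (t n) (s n) ≤ 1` be the ratio of the two eigenvalues, assume that
`δ ≤ q n ≤ 1 - δ` for all large `n`, with some `δ > 0`, and put `a n = (2/π) arcsin (√(q n))`.
Then for every nonnegative test function `ψ` and every `ε > 0`:
(1) for every `l ∈ [0, 1]`, for all large `n`, `∫ ψ f² g² dμ ≥ bb l (√(q n)) ∫ ψ dμ - ε`;
(2) for all large `n`, `∫ ψ f² g² dμ ≥ max (a n) (1 - 2 √(a n)) ∫ ψ dμ - ε`;
(3) for all large `n`, `∫ ψ f² g² dμ ≥ (3 - 2 √2) ∫ ψ dμ - ε`. -/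
theorem result (t s : ℕ → ℝ) (ht : Tendsto t atTop atTop) (hs : Tendsto s atTop atTop)
    (f g : ℕ → ℂ → ℝ) (hf : ∀ n, Eig (t n) (f n)) (hg : ∀ n, Eig (s n) (g n)) (hqf : QUE t f)
    (hqg : QUE s g) (δ : ℝ) (hδ : 0 < δ)
    (hr : ∀ᶠ n in atTop, δ ≤ rat (t n) (s n) ∧ rat (t n) (s n) ≤ 1 - δ)
    (ψ : ℂ → ℝ) (hψ : TF HH ψ) (h0 : ∀ z, 0 ≤ ψ z) (ε : ℝ) (hε : 0 < ε) :
    (∀ l : ℝ, 0 ≤ l → l ≤ 1 → ∀ᶠ n in atTop, bb l (√(rat (t n) (s n))) * II ψ (fun _ => 1) - ε ≤
        II ψ (fun z => f n z ^ 2 * g n z ^ 2)) ∧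
    (∀ᶠ n in atTop, max (aa (t n) (s n)) (1 - 2 * √(aa (t n) (s n))) * II ψ (fun _ => 1) - ε ≤
        II ψ (fun z => f n z ^ 2 * g n z ^ 2)) ∧
    ∀ᶠ n in atTop, (3 - 2 * √2) * II ψ (fun _ => 1) - ε ≤
        II ψ (fun z => f n z ^ 2 * g n z ^ 2) := by
  have I0 : 0 ≤ II ψ (fun _ => 1) := integral_nonneg fun z => by
    have := h0 z
    simp only [Pi.zero_apply]; positivity
  have key0 : ∀ᶠ n in atTop,
      aa (t n) (s n) * II ψ (fun _ => 1) - ε ≤ II ψ (fun z => f n z ^ 2 * g n z ^ 2) ∧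
        (1 - 2 * √(aa (t n) (s n))) * II ψ (fun _ => 1) - ε ≤
          II ψ (fun z => f n z ^ 2 * g n z ^ 2) := by
    filter_upwards [half ht hs hf hg hqf hqg hψ h0 hδ hε, half hs ht hg hf hqg hqf hψ h0 hδ hε, hr]
      with n h1 h2 ⟨h3, h4⟩
    unfold aa
    unfold rat at h3 h4 ⊢
    rcases le_total (ev (s n) / ev (t n)) (ev (t n) / ev (s n)) with h | h
    · rw [min_eq_left h] at h3 h4 ⊢
      exact h1 h3 h4
    · rw [min_eq_right h] at h3 h4 ⊢
      have := h2 h3 h4
      simp only [mul_comm (g n _ ^ 2)] at this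
      exact this
  have key : ∀ᶠ n in atTop, max (aa (t n) (s n)) (1 - 2 * √(aa (t n) (s n))) *
      II ψ (fun _ => 1) - ε ≤ II ψ (fun z => f n z ^ 2 * g n z ^ 2) := by
    filter_upwards [key0] with n h5
    rcases max_choice (aa (t n) (s n)) (1 - 2 * √(aa (t n) (s n))) with h | h
    · rw [h]; exact h5.1
    · rw [h]; exact h5.2
  refine ⟨fun l hl hl1 => ?_, key, key.mono fun n hn => le_trans ?_ hn⟩
  · rcases hl1.lt_or_eq with hl2 | hl2
    · filter_upwards [half4 ht hs hf hg hqf hqg hψ h0 hl hl2 hδ hε,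
        half4 hs ht hg hf hqg hqf hψ h0 hl hl2 hδ hε, hr] with n h1 h2 ⟨h3, h4⟩
      unfold rat at h3 h4 ⊢
      rcases le_total (ev (s n) / ev (t n)) (ev (t n) / ev (s n)) with h | h
      · rw [min_eq_left h] at h3 h4 ⊢
        exact h1 h3 h4
      · rw [min_eq_right h] at h3 h4 ⊢
        have := h2 h3 h4
        simp only [mul_comm (g n _ ^ 2)] at this
        exact this
    · filter_upwards [key0] with n h5
      rw [hl2, bb_one (Real.sqrt_nonneg _)]
      exact h5.1
  · have a0 : 0 ≤ aa (t n) (s n) := by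
      unfold aa
      have := Real.arcsin_nonneg.2 (Real.sqrt_nonneg (rat (t n) (s n)))
      have := Real.pi_pos
      positivity
    have := mul_le_mul_of_nonneg_right (max_bd a0) I0
    linarith

end Pool.Agent.Results.MP_a28cf0_nt.FourthMomentsFromBelow
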