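import Pool.Agent.Run7.h176.NC.All

/-!
# MP_a28cf0_nt: joint moments of total degree at most `3` do not concentrate on geodesics

`HeckeForm f l` (file `Pool/Agent/Run7/h176/NC/Hecke.lean`) says that `f : ℍ → ℂ` is measurable, invariant
under `SL(2, ℤ)` and that, for every prime `p`,
`f (p z) + ∑_{0 ≤ b < p} f ((z + b) / p) = √p * l p * f z` for all `z`, that is, `f` is an eigenfunction of
all Hecke operators `T_p`. Every Hecke-Maass cusp form of the modular surface is one; the spectral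
parameter plays no role, and the statement is uniform in it.
`JoinsCusps α β γ` says that the geodesic `α |z|² + β Re z + γ = 0` joins two cusps: its coefficients are
proportional to integers with a square discriminant.
`𝒟` is the standard fundamental domain, the integrals are with respect to the hyperbolic area.
-/

set_option autoImplicit false

open UpperHalfPlane MeasureTheory
open scoped MatrixGroups ENNReal Modular

namespace Pool.Agent.Results.MP_a28cf0_nt.JointMomentsDoNotConcentrate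

open Pool.Agent.Run7.h176.NC

/-- Let `L` be a compact subset of the geodesic `α |z|² + β Re z + γ = 0` of the upper half plane; for
example `L` can be any point. For every `ε > 0` there is `δ > 0` such that, for all families
`f_1, …, f_I` of eigenfunctions of the Hecke operators and all exponents `a_i ≥ 0` with
`1 ≤ q = ∑ a_i ≤ 3`, the integral of `∏ |f_i| ^ a_i` over the `δ`-neighbourhood of `L` is at most
`ε ∏ (∫_𝒟 |f_i| ^ q) ^ (a_i / q)`. If the geodesic joins two cusps, we assume `|l_i p| ≤ C₀ p ^ (1 / 6)`;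
for Hecke-Maass cusp forms this holds with `C₀ = 2`, by Kim and Sarnak. -/
theorem result (α β γ : ℝ) (h0 : ¬ (α = 0 ∧ β = 0 ∧ γ = 0)) (C₀ : ℝ) (hC₀ : 1 ≤ C₀)
    (L : Set ℍ) (hL : IsCompact L)
    (hLG : ∀ z ∈ L, α * Complex.normSq (z : ℂ) + β * z.re + γ = 0)
    (ε : ℝ) (hε : 0 < ε) :
    ∃ δ : ℝ, 0 < δ ∧ ∀ (I : ℕ) (f : Fin I → ℍ → ℂ) (l : Fin I → ℕ → ℂ) (a : Fin I → ℝ),
      (∀ i, HeckeForm (f i) (l i)) →
      (JoinsCusps α β γ → ∀ i, ∀ p : ℕ, p.Prime → ‖l i p‖ ≤ C₀ * (p : ℝ) ^ (1 / 6 : ℝ)) →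
      (∀ i, 0 ≤ a i) → 1 ≤ ∑ i, a i → ∑ i, a i ≤ 3 →
      ∫⁻ z in Metric.thickening δ L, ∏ i, ‖f i z‖ₑ ^ a i ≤
        ENNReal.ofReal ε * ∏ i, (∫⁻ z in 𝒟, ‖f i z‖ₑ ^ ∑ j, a j) ^ (a i / ∑ j, a j) := by
  obtain ⟨δ, hδ, h⟩ := geod_all α β γ h0 C₀ hC₀ L hL hLG ε hε
  refine ⟨δ, hδ, fun I f l a H hl ha h1 h3 => ?_⟩
  have hε0 : ENNReal.ofReal ε ≠ 0 := by
    rw [ne_eq, ENNReal.ofReal_eq_zero, not_le]; exact hε
  exact joint_holder (fun i => (H i).measurable) ha (by linarith) rfl hε0 ENNReal.ofReal_ne_top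
    (fun i => h (f i) (l i) (H i) (fun hj => hl hj i) _ h1 h3)

end Pool.Agent.Results.MP_a28cf0_nt.JointMomentsDoNotConcentrate
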