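import Pool.Agent.Run7.h9.TC.Gen2

/-!
# Triple correlations `∫ ψ f g k dμ` of three eigenfunctions (MP_a28cf0_nt)

The plane is `ℂ`, with the upper half plane `HH` and `dμ = dx dy / y²`. `dx f z`, `dy f z` are the
partial derivatives `fderiv ℝ f z 1`, `fderiv ℝ f z I`; `TF U φ` says that `φ : ℂ → ℝ` is smooth
with compact support contained in `U`.

For Hecke-Maass cusp forms the hypothesis `QUE` is a theorem (Lindenstrauss, Soundararajan), so that
the result is the conjecture for `I = 3`, `a = (1, 1, 1)`, for all sequences of triples whose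
spectral parameters `t`, `s`, `q` stay away from degenerate triangles.

Proof. `L = -h² y² Δ` is the Laplacian normalised by the frequency of `f`. For every polynomial
`F` the translation relations and the null form of the two ladders determine the mean square of
`F(L) (f g)`, `F` divisible by an explicit polynomial `qP`, in terms of the mean square of the
Gaussian field and of the correlation `∫ φ (P(L) f²) (R(L) g²)` (`TC.Alg`, `TC.Spec`). By
Cauchy-Schwarz the latter is controlled by the power spectra of `f²` and of `g²`, which are known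
away from the frequencies `0` and `4`; `R` is the sum of the values of `F²` at the two
frequencies over a frequency of `f²`. As `h^{1/2} |f|`, `h^{1/2} |g|` tend to `0`,
`F(r) ∫ ψ f g k = ∫ ψ (F(L) (f g)) k + o(1)`, `r` the ratio of the eigenvalues of `k` and `f`, and
`F` is chosen with `F(r) ≠ 0` fixed and small mean squares.
-/

set_option autoImplicit false
open MeasureTheory Filter Topology Complex
open scoped ContDiff

namespace Pool.Agent.Results.MP_a28cf0_nt.TripleCorrelations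

open Pool.Agent.W745.RW (TF dx dy lap)

/-- the open upper half plane -/
def HH : Set ℂ := {z | 0 < z.im}

/-- the eigenvalue `1/4 + t²` -/
noncomputable def ev (t : ℝ) : ℝ := 1 / 4 + t ^ 2

/-- `f` is a smooth real solution of `-y² (∂x² + ∂y²) f = (1/4 + t²) f` on the upper half plane -/
def Eig (t : ℝ) (f : ℂ → ℝ) : Prop :=
  ContDiffOn ℝ ∞ f HH ∧ ∀ z ∈ HH, -(z.im ^ 2 * (dx (dx f) z + dy (dy f) z)) = ev t * f z

/-- the operator `f ↦ lam^{-1/2} y (∂x f - i ∂y f)` -/
noncomputable def RO (lam : ℝ) (f : ℂ → ℂ) (z : ℂ) : ℂ :=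
  ((z.im / √lam : ℝ) : ℂ) * (dx f z - I * dy f z)

/-- quantum unique ergodicity in microlocal form: `∫ φ f (RO^k f) dμ → ∫ φ dμ` for `k = 0`, and
`→ 0` for `k ≥ 1` -/
def QUE (t : ℕ → ℝ) (f : ℕ → ℂ → ℝ) : Prop :=
  ∀ φ, TF HH φ → ∀ k : ℕ, Tendsto (fun n => ∫ z, ((φ z / z.im ^ 2 : ℝ) : ℂ) *
    ((f n z : ℂ) * (RO (ev (t n)))^[k] (fun w => (f n w : ℂ)) z)) atTop
    (𝓝 (if k = 0 then ((∫ z, φ z / z.im ^ 2 : ℝ) : ℂ) else 0))

/-- the sequence is bounded in `L²(K, dμ)` for every compact subset `K` of the upper half plane -/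
def LocL2 (f : ℕ → ℂ → ℝ) : Prop := ∀ K : Set ℂ, IsCompact K → K ⊆ HH →
  ∃ C : ℝ, ∀ᶠ n in atTop, ∫ z in K, f n z ^ 2 / z.im ^ 2 ≤ C

/-- the triple correlation `∫ ψ f g k dμ` -/
noncomputable def T (ψ f g k : ℂ → ℝ) : ℝ := ∫ z, ψ z * (f z * g z * k z) / z.im ^ 2

/-- Heron's polynomial: `16 A²`, `A` the area of the triangle with the sides `√a`, `√b`, `√c`; it
is negative if there is no such triangle -/
def heron (a b c : ℝ) : ℝ := 2 * (a * b + b * c + c * a) - (a ^ 2 + b ^ 2 + c ^ 2)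

lemma ev_pos (t : ℝ) : 0 < ev t := by unfold ev; positivity

lemma HHo : IsOpen HH := isOpen_lt continuous_const continuous_im

lemma ev_lim {t : ℕ → ℝ} (ht : Tendsto t atTop atTop) :
    Tendsto (fun n => ev (t n)) atTop atTop :=
  tendsto_atTop_add_const_left _ _ ((tendsto_pow_atTop two_ne_zero).comp ht)

lemma cmp_bd {K : Set ℂ} (hK : IsCompact K) (hKH : K ⊆ HH) : ∃ C : ℝ, 0 < C ∧
    ∀ F : ℂ → ℝ, ContinuousOn F K → (∀ z, 0 ≤ F z) →
      ∫ z in K, F z ≤ C * ∫ z in K, F z / z.im ^ 2 := by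
  have him : ContDiff ℝ ∞ (fun z : ℂ => z.im) := imCLM.contDiff
  obtain ⟨C, hC⟩ := hK.exists_bound_of_continuousOn
    ((him.continuous.pow 2).continuousOn (s := K))
  refine ⟨|C| + 1, by positivity, fun F hF hF0 => ?_⟩
  have i1 : IntegrableOn F K := hF.integrableOn_compact hK
  have i2 : IntegrableOn (fun z => (|C| + 1) * (F z / z.im ^ 2)) K := by
    refine ContinuousOn.integrableOn_compact hK ?_
    refine continuousOn_const.mul (hF.div (him.continuous.pow 2).continuousOn fun z hz => ?_)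
    have : 0 < z.im := hKH hz
    positivity
  rw [← integral_const_mul]
  refine setIntegral_mono_on i1 i2 hK.measurableSet fun z hz => ?_
  have h3 : 0 < z.im := hKH hz
  have h4 : z.im ^ 2 ≤ |C| + 1 := by
    have h7 : ‖z.im ^ 2‖ ≤ C := hC z hz
    rw [Real.norm_eq_abs, abs_of_nonneg (pow_nonneg h3.le 2)] at h7
    linarith [le_abs_self C]
  rw [mul_div_assoc', le_div_iff₀ (pow_pos h3 2), mul_comm]
  exact mul_le_mul_of_nonneg_right h4 (hF0 z)

lemma data {t s : ℕ → ℝ} (ht : Tendsto t atTop atTop) (hs : Tendsto s atTop atTop)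
    {f g : ℕ → ℂ → ℝ} (hf : ∀ n, Eig (t n) (f n)) (hg : ∀ n, Eig (s n) (g n))
    (hqe : QUE t f) (hgb : LocL2 g) :
    Pool.Agent.Y265.HY.JC.JD HH (fun n => ev (t n)) (fun n => ev (s n)) f g where
  op := HHo
  hU := fun z hz => hz
  lp := fun n => ev_pos _
  ll := ev_lim ht
  mp := fun n => ev_pos _
  ml := ev_lim hs
  us := fun n => (hf n).1
  gs := fun n => (hg n).1
  ue := fun n z hz => by
    have h1 := (hf n).2 z hz
    have h2 : lap (f n) z = dx (dx (f n)) z + dy (dy (f n)) z := rfl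
    rw [h2]; linarith
  ge := fun n z hz => by
    have h1 := (hg n).2 z hz
    have h2 : lap (g n) z = dx (dx (g n)) z + dy (dy (g n)) z := rfl
    rw [h2]; linarith
  gb := fun K hK hKH => by
    obtain ⟨C, hC⟩ := hgb K hK hKH
    obtain ⟨C', hC'0, hC'⟩ := cmp_bd hK hKH
    refine ⟨C' * C, hC.mono fun n hn => ?_⟩
    exact (hC' (fun z => g n z ^ 2) (((hg n).1.continuousOn.mono hKH).pow 2)
      (fun z => by positivity)).trans (mul_le_mul_of_nonneg_left hn hC'0.le)
  qe := hqe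

lemma tf {ψ : ℂ → ℝ} (hψ : TF HH ψ) : TF HH (fun z => ψ z / z.im ^ 2) := by
  have sy : ContDiffOn ℝ ∞ (fun z : ℂ => (z.im ^ 2)⁻¹) HH := by
    refine ContDiffOn.inv ((imCLM.contDiff.pow 2).contDiffOn) fun z hz => ?_
    have : 0 < z.im := hz
    exact pow_ne_zero 2 this.ne'
  exact Pool.Agent.TH294.RS.TF.mulc HHo hψ sy

/-- quantum ergodic sequences are locally bounded in `L²` -/
lemma que_bd {t : ℕ → ℝ} {f : ℕ → ℂ → ℝ} (hf : ∀ n, Eig (t n) (f n)) (h : QUE t f) : LocL2 f := by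
  intro K hK hKH
  obtain ⟨ζ, hζ, hζ0, -, hζ1⟩ := Pool.Agent.Y265.RW.cutoff HHo hK hKH
  have h1 := h ζ hζ 0
  rw [if_pos rfl] at h1
  have h2 : Tendsto (fun n => ∫ z, ζ z / z.im ^ 2 * f n z ^ 2) atTop
      (𝓝 (∫ z, ζ z / z.im ^ 2)) := by
    refine Pool.Agent.Y265.HY.toR (h1.congr fun n => ?_)
    rw [← integral_complex_ofReal]
    congr 1; funext z
    simp only [Function.iterate_zero, id_eq]
    push_cast; ring
  refine ⟨(∫ z, ζ z / z.im ^ 2) + 1, ?_⟩
  filter_upwards [h2.eventually (gt_mem_nhds (lt_add_one _))] with n hn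
  have i1 : Integrable (fun z => ζ z / z.im ^ 2 * f n z ^ 2) :=
    Pool.Agent.W311.RW.int_mul HHo (tf hζ) ((hf n).1.continuousOn.pow 2)
  calc ∫ z in K, f n z ^ 2 / z.im ^ 2 = ∫ z in K, ζ z / z.im ^ 2 * f n z ^ 2 := by
        refine setIntegral_congr_fun hK.measurableSet fun z hz => ?_
        rw [hζ1 z hz]; ring
    _ ≤ ∫ z, ζ z / z.im ^ 2 * f n z ^ 2 := setIntegral_le_integral i1
        (Eventually.of_forall fun z => by
          have := hζ0 z
          simp only [Pi.zero_apply]; positivity)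
    _ ≤ _ := hn.le

lemma T_eq (ψ f g k : ℂ → ℝ) : T ψ f g k =
    Pool.Agent.Run7.h9.TC.JT (fun z => ψ z / z.im ^ 2) f g k := by
  unfold T Pool.Agent.Run7.h9.TC.JT
  congr 1; funext z; ring

lemma heron_eq (a b c : ℝ) : heron a b c = Pool.Agent.Run7.h9.TC.her a b c := rfl

/-- **Result.** Let `f n`, `g n`, `k n` be real eigenfunctions of the hyperbolic Laplacian on the
upper half plane with spectral parameters `t n`, `s n`, `q n → ∞`. Write `a`, `b`, `c` for the
eigenvalues `ev (t n)`, `ev (s n)`, `ev (q n)`. The `f n` and the `g n` satisfy microlocal quantum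
unique ergodicity.

1. If the `k n` satisfy quantum unique ergodicity as well, and the triangles with the sides `√a`,
`√b`, `√c` exist and stay away from degenerate ones, `heron a b c ≥ δ (a + b + c)²`, then
`∫ ψ f g k dμ → 0` for every test function `ψ`.
2. If the `k n` satisfy quantum unique ergodicity, `a/b` is bounded above and away from `0`, and
`|heron a b c| ≥ δ (a + b + c)²` (the triangle may now fail to exist), the same holds.
3. If the `k n` are only locally bounded in `L²`, the same holds under the conditions of 2 if also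
`c` stays away from `|a - b|`. -/
theorem result (t s q : ℕ → ℝ) (ht : Tendsto t atTop atTop) (hs : Tendsto s atTop atTop)
    (hq : Tendsto q atTop atTop) (f g k : ℕ → ℂ → ℝ) (hf : ∀ n, Eig (t n) (f n))
    (hg : ∀ n, Eig (s n) (g n)) (hk : ∀ n, Eig (q n) (k n)) (hqf : QUE t f) (hqg : QUE s g) :
    (QUE q k → (∃ δ : ℝ, 0 < δ ∧ ∀ᶠ n in atTop,
        δ * (ev (t n) + ev (s n) + ev (q n)) ^ 2 ≤ heron (ev (t n)) (ev (s n)) (ev (q n))) →
      ∀ ψ, TF HH ψ → Tendsto (fun n => T ψ (f n) (g n) (k n)) atTop (𝓝 0)) ∧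
    (QUE q k → (∃ δ : ℝ, 0 < δ ∧ ∀ᶠ n in atTop,
        (δ * ev (t n) ≤ ev (s n) ∧ δ * ev (s n) ≤ ev (t n)) ∧
        δ * (ev (t n) + ev (s n) + ev (q n)) ^ 2 ≤ |heron (ev (t n)) (ev (s n)) (ev (q n))|) →
      ∀ ψ, TF HH ψ → Tendsto (fun n => T ψ (f n) (g n) (k n)) atTop (𝓝 0)) ∧
    (LocL2 k → (∃ δ : ℝ, 0 < δ ∧ ∀ᶠ n in atTop,
        (δ * ev (t n) ≤ ev (s n) ∧ δ * ev (s n) ≤ ev (t n)) ∧
        δ * (ev (t n) + ev (s n) + ev (q n)) ^ 2 ≤ |heron (ev (t n)) (ev (s n)) (ev (q n))| ∧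
        δ * (ev (t n) + ev (s n) + ev (q n)) ≤ |ev (q n) - (|ev (t n) - ev (s n)|)|) →
      ∀ ψ, TF HH ψ → Tendsto (fun n => T ψ (f n) (g n) (k n)) atTop (𝓝 0)) := by
  have bf := que_bd hf hqf
  have bg := que_bd hg hqg
  have main : QUE q k → (∃ δ : ℝ, 0 < δ ∧ ∀ᶠ n in atTop,
        (δ * ev (t n) ≤ ev (s n) ∧ δ * ev (s n) ≤ ev (t n)) ∧
        δ * (ev (t n) + ev (s n) + ev (q n)) ^ 2 ≤ |heron (ev (t n)) (ev (s n)) (ev (q n))|) →
      ∀ ψ, TF HH ψ → Tendsto (fun n => T ψ (f n) (g n) (k n)) atTop (𝓝 0) := by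
    intro hqk h ψ hψ
    obtain ⟨δ, hδ, h⟩ := h
    have bk := que_bd hk hqk
    simp only [T_eq]
    exact Pool.Agent.Run7.h9.TC.three (data ht hq hf hk hqf bk) (data hs hq hg hk hqg bk)
      (data hs ht hg hf hqg bf) (data hq ht hk hf hqk bf) (data ht hs hf hg hqf bg)
      (data hq hs hk hg hqk bg) hδ (h.mono fun n hn => hn.1)
      (h.mono fun n hn => hn.2) (tf hψ)
  refine ⟨fun hqk h => main hqk ?_, main, fun hbk h ψ hψ => ?_⟩
  · obtain ⟨δ, hδ, h⟩ := h
    refine ⟨δ / 4, by positivity, h.mono fun n hn => ⟨?_, ?_⟩⟩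
    · exact Pool.Agent.Run7.h9.TC.tri_cmp (ev_pos _) (ev_pos _) (ev_pos _) hδ hn
    · refine le_trans ?_ (hn.trans (le_abs_self _))
      exact mul_le_mul_of_nonneg_right (by linarith) (sq_nonneg _)
  · obtain ⟨δ, hδ, h⟩ := h
    simp only [T_eq]
    exact Pool.Agent.Run7.h9.TC.two (data ht hq hf hk hqf hbk) (data hs hq hg hk hqg hbk) hδ
      (h.mono fun n hn => hn.1) (h.mono fun n hn => hn.2.1) (h.mono fun n hn => hn.2.2) (tf hψ)

end Pool.Agent.Results.MP_a28cf0_nt.TripleCorrelations
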