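import Pool.Agent.Run7.h176.NC.Tube8
import Pool.Agent.Run7.h176.NC.All

/-!
# MP_a28cf0_nt: power saving for joint moments of total degree less than `3` on balls and near geodesics

`HeckeForm f l` (file `Pool/Agent/Run7/h176/NC/Hecke.lean`) says that `f : ℍ → ℂ` is measurable, invariant
under `SL(2, ℤ)` and that, for every prime `p`,
`f (p z) + ∑_{0 ≤ b < p} f ((z + b) / p) = √p * l p * f z` for all `z`, that is, `f` is an eigenfunction of
all Hecke operators `T_p`. Every Hecke-Maass cusp form of the modular surface is one, and by Kim and Sarnak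
it satisfies `‖l p‖ ≤ 2 * p ^ θ` with `θ = 7 / 64`; then the exponents `η` below exist for all `q < 3`.
`𝒟` is the standard fundamental domain, the integrals are with respect to the hyperbolic area.
If `β ^ 2 - 4 α γ = 1`, then `|α |z|² + β Re z + γ| / Im z` is `sinh` of the distance of `z` to the geodesic
`α |z|² + β Re z + γ = 0`.
-/

set_option autoImplicit false

open UpperHalfPlane MeasureTheory
open scoped MatrixGroups ENNReal Modular

namespace Pool.Agent.Results.MP_a28cf0_nt.UniformJointBound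

open Pool.Agent.Run7.h176.NC

/-- The part of the upper half plane `E` carries, for the family `f` and the exponents `a` of sum `q`, at
most the part `c` of the largest possible value of the joint moment:
`∫_E ∏ |f_i| ^ a_i ≤ c ∏ (∫_𝒟 |f_i| ^ q) ^ (a_i / q)`. -/
def JointAtMost {I : ℕ} (f : Fin I → ℍ → ℂ) (a : Fin I → ℝ) (q c : ℝ) (E : Set ℍ) : Prop :=
  ∫⁻ z in E, ∏ i, ‖f i z‖ₑ ^ a i ≤
    ENNReal.ofReal c * ∏ i, (∫⁻ z in 𝒟, ‖f i z‖ₑ ^ q) ^ (a i / q)

/-- Let `K` be a compact subset of the upper half plane, `1 ≤ q`, and let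
`0 < 4 η < min (1, 3 - q, 2 - (1 / 2 + θ) q)`. There is a constant `C` such that, for all families
`f_1, …, f_I` of eigenfunctions of the Hecke operators with eigenvalues `|l_i p| ≤ C₀ p ^ θ` and all
exponents `a_i ≥ 0` of sum `q`: for all points `z₀` of `K` and all `δ ≤ 1` the ball `B(z₀, δ)` carries at
most the part `C δ ^ η`, and for all geodesics `α |z|² + β Re z + γ = 0` and all `δ ≤ 1` the points of `K`
at a distance at most `arsinh δ` from the geodesic carry at most the part `C δ ^ (η² / 5)`. -/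
theorem result (K : Set ℍ) (hK : IsCompact K) (C₀ θ q η : ℝ) (hC₀ : 1 ≤ C₀) (hq : 1 ≤ q)
    (hη : 0 < η) (h1 : 4 * η < 1) (h2 : 4 * η < 3 - q) (h3 : 4 * η < 2 - (1 / 2 + θ) * q) :
    ∃ C : ℝ, 0 < C ∧ ∀ (I : ℕ) (f : Fin I → ℍ → ℂ) (l : Fin I → ℕ → ℂ) (a : Fin I → ℝ),
      (∀ i, HeckeForm (f i) (l i)) →
      (∀ i, ∀ p : ℕ, p.Prime → ‖l i p‖ ≤ C₀ * (p : ℝ) ^ θ) →
      (∀ i, 0 ≤ a i) → ∑ i, a i = q → ∀ δ : ℝ, 0 < δ → δ ≤ 1 →
      (∀ z₀ ∈ K, JointAtMost f a q (C * δ ^ η) (Metric.ball z₀ δ)) ∧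
      ∀ α β γ : ℝ, β ^ 2 - 4 * α * γ = 1 → JointAtMost f a q (C * δ ^ (η ^ 2 / 5))
        {z : ℍ | z ∈ K ∧ |α * Complex.normSq (z : ℂ) + β * z.re + γ| ≤ δ * z.im} := by
  obtain ⟨C₁, hC₁, H₁⟩ := ball_bound hK hC₀ hq hη h1 h2 h3
  obtain ⟨C₂, hC₂, H₂⟩ := strip_bound hK hC₀ hq hη h1 h2 h3
  refine ⟨C₁ + C₂, by positivity, fun I f l a H hl ha hs δ hδ hδ1 => ⟨fun z₀ hz₀ => ?_, ?_⟩⟩
  · have hc : 0 < (C₁ + C₂) * δ ^ η := by positivity
    have hc0 : ENNReal.ofReal ((C₁ + C₂) * δ ^ η) ≠ 0 := by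
      rw [ne_eq, ENNReal.ofReal_eq_zero, not_le]; exact hc
    refine joint_holder (fun i => (H i).measurable) ha (by linarith) hs hc0 ENNReal.ofReal_ne_top
      fun i => (H₁ (f i) (l i) (H i) (hl i) z₀ hz₀ δ hδ hδ1).trans ?_
    gcongr
    linarith
  · intro α β γ hd
    have hc : 0 < (C₁ + C₂) * δ ^ (η ^ 2 / 5) := by positivity
    have hc0 : ENNReal.ofReal ((C₁ + C₂) * δ ^ (η ^ 2 / 5)) ≠ 0 := by
      rw [ne_eq, ENNReal.ofReal_eq_zero, not_le]; exact hc
    have hset : {z : ℍ | z ∈ K ∧ |α * Complex.normSq (z : ℂ) + β * z.re + γ| ≤ δ * z.im} =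
        {z : ℍ | z ∈ K ∧ |Fv α β γ z| ≤ δ} := by
      ext z
      simp only [Set.mem_ofPred_eq]
      unfold Fv
      rw [abs_div, abs_of_pos z.im_pos, div_le_iff₀ z.im_pos]
    rw [hset]
    refine joint_holder (fun i => (H i).measurable) ha (by linarith) hs hc0 ENNReal.ofReal_ne_top
      fun i => (H₂ (f i) (l i) (H i) (hl i) α β γ hd δ hδ hδ1).trans ?_
    gcongr
    linarith

end Pool.Agent.Results.MP_a28cf0_nt.UniformJointBound
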